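import Mathlib

namespace Pool.Agent.Results.MP_cb2837_co.QuarterAsymptotic

open Finset

/-- A complete bipartite subgraph of the complete graph on `Fin n`: two disjoint nonempty
vertex sets. -/
structure Biclique (n : ℕ) where
  A : Finset (Fin n)
  B : Finset (Fin n)
  disj : Disjoint A B
  neA : A.Nonempty
  neB : B.Nonempty

/-- The edge `{x, y}` lies in the biclique. -/
def Biclique.Has {n : ℕ} (K : Biclique n) (x y : Fin n) : Prop :=
  (x ∈ K.A ∧ y ∈ K.B) ∨ (x ∈ K.B ∧ y ∈ K.A)

/-- The family `P` of `m` products of bicliques is an odd cover of `E(K_n) × E(K_n)`: every pair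
of edges `({x, y}, {z, w})` lies in an odd number of members. -/
def IsOddCover {n m : ℕ} (P : Fin m → Biclique n × Biclique n) : Prop :=
  ∀ x y z w : Fin n, x ≠ y → z ≠ w →
    Odd (Nat.card {i : Fin m // (P i).1.Has x y ∧ (P i).2.Has z w})

/-- The set of sizes of odd covers of `E(K_n) × E(K_n)`. -/
def Sizes (n : ℕ) : Set ℕ := {m | ∃ P : Fin m → Biclique n × Biclique n, IsOddCover P}

/-- The least size of an odd cover. -/
noncomputable def gt (n : ℕ) : ℕ := sInf (Sizes n)

/-! ### Lower bound -/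

/-- indicator of a finset with values in `ZMod 2` -/
def ind {n : ℕ} (S : Finset (Fin n)) (x : Fin n) : ZMod 2 := if x ∈ S then 1 else 0

lemma zmod2_two (a : ZMod 2) : a + a = 0 := by
  have : ∀ a : ZMod 2, a + a = 0 := by decide
  exact this a

open Classical in
lemma ind_has {n : ℕ} (K : Biclique n) (x y : Fin n) :
    ind K.A x * ind K.B y + ind K.B x * ind K.A y = if K.Has x y then 1 else 0 := by
  have h := K.disj
  rw [Finset.disjoint_left] at h
  unfold ind Biclique.Has
  by_cases h1 : x ∈ K.A <;> by_cases h2 : x ∈ K.B <;> by_cases h3 : y ∈ K.A <;>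
    by_cases h4 : y ∈ K.B <;> simp [h1, h2, h3, h4]
  all_goals first
    | exact absurd h2 (h h1)
    | exact absurd h4 (h h3)

/-- the matrix `J - I` over `ZMod 2` -/
def JI (n : ℕ) : Matrix (Fin n) (Fin n) (ZMod 2) := fun x y => if x = y then 0 else 1

lemma JI_sq (n : ℕ) (hn : Even n) : JI n * JI n = 1 := by
  ext x y
  rw [Matrix.mul_apply]
  have h1 : ∀ j : Fin n, JI n x j * JI n j y =
      1 + (if x = j then 1 else 0) + (if j = y then 1 else 0) +
        (if x = j then (if j = y then 1 else 0) else 0) := by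
    intro j
    have e2 : (1 : ZMod 2) + 1 = 0 := by decide
    have e4 : (1 : ZMod 2) + 1 + 1 + 1 = 0 := by decide
    unfold JI
    by_cases h1 : x = j
    · subst h1
      by_cases h2 : x = y
      · subst h2; simp [e4]
      · simp [h2, e2]
    · by_cases h2 : j = y
      · subst h2; simp [h1, e2]
      · simp [h1, h2]
  rw [Finset.sum_congr rfl (fun j _ => h1 j)]
  rw [Finset.sum_add_distrib, Finset.sum_add_distrib, Finset.sum_add_distrib]
  simp only [Finset.sum_const, Finset.card_univ, Fintype.card_fin, Finset.sum_ite_eq,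
    Finset.sum_ite_eq', Finset.mem_univ, if_true]
  obtain ⟨k, rfl⟩ := hn
  rw [Matrix.one_apply]
  have h2 : ((k + k) • (1 : ZMod 2)) = 0 := by
    rw [nsmul_eq_mul, Nat.cast_add, zmod2_two, zero_mul]
  rw [h2]
  by_cases h : x = y <;> simp [h] <;> decide

theorem lower {n m : ℕ} (P : Fin m → Biclique n × Biclique n) (hP : IsOddCover P) :
    (n / 2) ^ 2 ≤ m := by
  classical
  set r := 2 * (n / 2) with hr
  have hrn : r ≤ n := by omega
  let ι : Fin r → Fin n := Fin.castLE hrn
  have hι : Function.Injective ι := Fin.castLE_injective hrn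
  -- the big matrix
  let M : Matrix (Fin r × Fin r) (Fin r × Fin r) (ZMod 2) :=
    fun p q => JI r p.1 q.1 * JI r p.2 q.2
  have hM : M * M = 1 := by
    ext ⟨x, z⟩ ⟨y, w⟩
    rw [Matrix.mul_apply, Fintype.sum_prod_type]
    have h1 := congrFun (congrFun (JI_sq r ⟨n / 2, by omega⟩) x) y
    have h2 := congrFun (congrFun (JI_sq r ⟨n / 2, by omega⟩) z) w
    rw [Matrix.mul_apply] at h1 h2
    have : ∀ j k : Fin r, M (x, z) (j, k) * M (j, k) (y, w) =
        (JI r x j * JI r j y) * (JI r z k * JI r k w) := by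
      intro j k
      simp only [M]
      ring
    simp_rw [this]
    rw [← Finset.sum_mul_sum, h1, h2]
    simp only [Matrix.one_apply, Prod.mk.injEq]
    by_cases h3 : x = y <;> by_cases h4 : z = w <;> simp [h3, h4]
  have hrank : M.rank = r * r := by
    have hu : IsUnit M := IsUnit.of_mul_eq_one M hM
    rw [Matrix.rank_of_isUnit M hu]
    simp
  let U : Matrix (Fin r × Fin r) (Fin m × Bool × Bool) (ZMod 2) := fun p q =>
    (if q.2.1 then ind (P q.1).1.A (ι p.1) else ind (P q.1).1.B (ι p.1)) *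
    (if q.2.2 then ind (P q.1).2.A (ι p.2) else ind (P q.1).2.B (ι p.2))
  let V : Matrix (Fin m × Bool × Bool) (Fin r × Fin r) (ZMod 2) := fun q p =>
    (if q.2.1 then ind (P q.1).1.B (ι p.1) else ind (P q.1).1.A (ι p.1)) *
    (if q.2.2 then ind (P q.1).2.B (ι p.2) else ind (P q.1).2.A (ι p.2))
  have hUV : M = U * V := by
    ext ⟨x, z⟩ ⟨y, w⟩
    rw [Matrix.mul_apply, Fintype.sum_prod_type]
    have h1 : ∀ i : Fin m, ∑ s : Bool × Bool, U (x, z) (i, s) * V (i, s) (y, w) =
        (if (P i).1.Has (ι x) (ι y) then 1 else 0) * (if (P i).2.Has (ι z) (ι w) then 1 else 0) := by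
      intro i
      rw [← ind_has, ← ind_has, Fintype.sum_prod_type]
      simp only [U, V, Fintype.sum_bool, if_true, Bool.false_eq_true, if_false]
      ring
    rw [Finset.sum_congr rfl (fun i _ => h1 i)]
    simp only [M, JI]
    by_cases hxy : x = y
    · subst hxy
      rw [if_pos rfl, zero_mul]
      symm
      apply Finset.sum_eq_zero
      intro i _
      rw [← ind_has]
      rw [mul_comm (ind (P i).1.B (ι x)), zmod2_two, zero_mul]
    · by_cases hzw : z = w
      · subst hzw
        rw [if_pos rfl, mul_zero]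
        symm
        apply Finset.sum_eq_zero
        intro i _
        rw [← ind_has (P i).2]
        rw [mul_comm (ind (P i).2.B (ι z)), zmod2_two, mul_zero]
      · rw [if_neg hxy, if_neg hzw, mul_one]
        have h2 := hP (ι x) (ι y) (ι z) (ι w) (fun h => hxy (hι h)) (fun h => hzw (hι h))
        have h3 : ∀ i : Fin m, ((if (P i).1.Has (ι x) (ι y) then 1 else 0) *
            (if (P i).2.Has (ι z) (ι w) then 1 else 0) : ZMod 2) =
            if ((P i).1.Has (ι x) (ι y) ∧ (P i).2.Has (ι z) (ι w)) then 1 else 0 := by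
          intro i
          by_cases h5 : (P i).1.Has (ι x) (ι y) <;> by_cases h6 : (P i).2.Has (ι z) (ι w) <;>
            simp [h5, h6]
        rw [Finset.sum_congr rfl (fun i _ => h3 i), Finset.sum_boole]
        rw [Nat.card_eq_fintype_card, Fintype.card_subtype] at h2
        symm
        exact (ZMod.natCast_eq_one_iff_odd).2 h2
  have h1 : M.rank ≤ 4 * m := by
    rw [hUV]
    refine (Matrix.rank_mul_le_left U V).trans ?_
    refine (Matrix.rank_le_card_width U).trans ?_
    simp
    omega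
  rw [hrank, hr] at h1
  nlinarith

/-! ### Upper bound -/

/-- sign pattern -/
def sg (c i : ℕ) : ZMod 2 :=
  (if i < c then 1 else 0) + (if i % 2 = 0 ∧ c % 2 = 0 then 1 else 0)

lemma sum_lt (i N : ℕ) :
    ∑ c ∈ range N, (if i < c then (1 : ZMod 2) else 0) = ((N - 1 - i : ℕ) : ZMod 2) := by
  induction N with
  | zero => simp
  | succ N ih =>
    rw [Finset.sum_range_succ, ih]
    by_cases h : i < N
    · rw [if_pos h, show N + 1 - 1 - i = (N - 1 - i) + 1 by omega]
      push_cast; ring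
    · rw [if_neg h, show N + 1 - 1 - i = 0 by omega, show N - 1 - i = 0 by omega]
      simp

lemma sum_even (i K : ℕ) :
    ∑ c ∈ range (4 * K), (if i % 2 = 0 ∧ c % 2 = 0 then (1 : ZMod 2) else 0) = 0 := by
  induction K with
  | zero => simp
  | succ K ih =>
    rw [show 4 * (K + 1) = 4 * K + 1 + 1 + 1 + 1 by ring, Finset.sum_range_succ,
      Finset.sum_range_succ, Finset.sum_range_succ, Finset.sum_range_succ, ih]
    have e2 : (1 : ZMod 2) + 1 = 0 := by decide
    by_cases h : i % 2 = 0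
    · rw [if_pos ⟨h, by omega⟩, if_neg (by omega), if_pos ⟨h, by omega⟩, if_neg (by omega)]
      simp [e2]
    · rw [if_neg (by omega), if_neg (by omega), if_neg (by omega), if_neg (by omega)]
      simp

lemma sum_sg (i K : ℕ) (h : i < 4 * K) : ∑ c ∈ range (4 * K), sg c i = 1 + (i : ZMod 2) := by
  unfold sg
  rw [Finset.sum_add_distrib, sum_lt, sum_even, add_zero]
  have h1 : ((4 * K - 1 - i : ℕ) : ZMod 2) + (1 + (i : ZMod 2)) = 0 := by
    have : ((4 * K - 1 - i + (1 + i) : ℕ) : ZMod 2) = ((4 * K : ℕ) : ZMod 2) := by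
      congr 1; omega
    push_cast at this
    rw [this]
    have h4 : (4 : ZMod 2) = 0 := by decide
    rw [h4, zero_mul]
  have h2 := zmod2_two (1 + (i : ZMod 2))
  have : ((4 * K - 1 - i : ℕ) : ZMod 2) = -(1 + (i : ZMod 2)) := eq_neg_of_add_eq_zero_left h1
  rw [this]
  exact (eq_neg_of_add_eq_zero_left h2).symm

lemma sg_diag (i : ℕ) : sg i i = 1 + (i : ZMod 2) := by
  unfold sg
  rw [if_neg (lt_irrefl i)]
  rcases Nat.mod_two_eq_zero_or_one i with h | h
  · rw [if_pos ⟨h, h⟩]
    have : (i : ZMod 2) = 0 := by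
      rw [ZMod.natCast_eq_zero_iff]; omega
    rw [this]; ring
  · rw [if_neg (by omega)]
    have : (i : ZMod 2) = 1 := by
      rw [ZMod.natCast_eq_one_iff_odd]; exact Nat.odd_iff.2 h
    rw [this]; decide

lemma sg_symm (i j : ℕ) (h : i ≠ j) : sg i j + sg j i = 1 := by
  unfold sg
  have e : (if i % 2 = 0 ∧ j % 2 = 0 then (1 : ZMod 2) else 0) =
      (if j % 2 = 0 ∧ i % 2 = 0 then 1 else 0) := by
    by_cases h1 : i % 2 = 0 <;> by_cases h2 : j % 2 = 0 <;> simp [h1, h2]
  rw [e]
  have h2 := zmod2_two (if j % 2 = 0 ∧ i % 2 = 0 then (1 : ZMod 2) else 0)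
  rcases lt_or_gt_of_ne h with h | h
  · rw [if_neg (show ¬ j < i by omega), if_pos h]
    linear_combination h2
  · rw [if_pos (show j < i by omega), if_neg (show ¬ i < j by omega)]
    linear_combination h2

/-- the value of vertex `x` in coordinate `c` -/
def vl (c x : ℕ) : ZMod 2 := sg c (x / 2) + (x : ZMod 2)

lemma main_sum (K x y : ℕ) (hx : x < 8 * K) (hy : y < 8 * K) (hxy : x ≠ y) :
    ∑ c ∈ range (4 * K), (if x / 2 ≠ c ∧ y / 2 ≠ c then vl c x + vl c y else 0) = 1 := by
  have h4K : ((4 * K : ℕ) : ZMod 2) = 0 := by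
    rw [ZMod.natCast_eq_zero_iff]; omega
  set i := x / 2 with hi
  set j := y / 2 with hj
  have hi' : i < 4 * K := by omega
  have hj' : j < 4 * K := by omega
  have tot : ∑ c ∈ range (4 * K), (vl c x + vl c y) = (1 + (i : ZMod 2)) + (1 + (j : ZMod 2)) := by
    unfold vl
    rw [Finset.sum_add_distrib, Finset.sum_add_distrib, Finset.sum_add_distrib, ← hi, ← hj,
      sum_sg i K hi', sum_sg j K hj']
    simp only [Finset.sum_const, Finset.card_range, nsmul_eq_mul]
    rw [h4K]; ring
  by_cases hij : i = j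
  · have h1 : ∀ c ∈ range (4 * K), (if i ≠ c ∧ j ≠ c then vl c x + vl c y else 0) =
        (1 : ZMod 2) + (if c = i then 1 else 0) := by
      intro c _
      have hv : vl c x + vl c y = 1 := by
        unfold vl
        rw [← hi, ← hj, hij]
        have : (x : ZMod 2) + (y : ZMod 2) = 1 := by
          have : ((x + y : ℕ) : ZMod 2) = 1 := by
            rw [ZMod.natCast_eq_one_iff_odd]
            rw [Nat.odd_iff]; omega
          exact_mod_cast this
        have h2 := zmod2_two (sg c j)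
        linear_combination this + h2
      by_cases hc : c = i
      · rw [if_neg (by omega), if_pos hc]; decide
      · rw [if_pos (by omega), if_neg hc, hv]; decide
    rw [Finset.sum_congr rfl h1, Finset.sum_add_distrib, Finset.sum_ite_eq' (range (4 * K)) i,
      if_pos (Finset.mem_range.2 hi')]
    simp only [Finset.sum_const, Finset.card_range, nsmul_eq_mul]
    rw [h4K]; ring
  · have h1 : ∀ c ∈ range (4 * K), (if i ≠ c ∧ j ≠ c then vl c x + vl c y else 0) =
        (vl c x + vl c y) + (if c = i then vl c x + vl c y else 0)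
          + (if c = j then vl c x + vl c y else 0) := by
      intro c _
      have h2 := zmod2_two (vl c x + vl c y)
      by_cases hc : c = i
      · subst hc
        rw [if_neg (by omega), if_pos rfl, if_neg hij, add_zero, h2]
      · by_cases hc2 : c = j
        · subst hc2
          rw [if_neg (by omega), if_neg hc, if_pos rfl, add_zero, h2]
        · rw [if_pos (by omega), if_neg hc, if_neg hc2, add_zero, add_zero]
    rw [Finset.sum_congr rfl h1, Finset.sum_add_distrib, Finset.sum_add_distrib, tot,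
      Finset.sum_ite_eq' (range (4 * K)) i, Finset.sum_ite_eq' (range (4 * K)) j,
      if_pos (Finset.mem_range.2 hi'), if_pos (Finset.mem_range.2 hj')]
    have e1 := sg_diag i
    have e2 := sg_diag j
    have e3 := sg_symm i j hij
    unfold vl
    rw [← hi, ← hj, e1, e2]
    have h2 := zmod2_two (1 + (i : ZMod 2))
    have h3 := zmod2_two (1 + (j : ZMod 2))
    have h4 := zmod2_two (x : ZMod 2)
    have h5 := zmod2_two (y : ZMod 2)
    linear_combination e3 + h2 + h3 + h4 + h5

/-- the biclique of coordinate `c` -/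
def bq (n : ℕ) (hn : 4 ≤ n) (c : ℕ) : Biclique n where
  A := Finset.univ.filter (fun x : Fin n => (x : ℕ) / 2 ≠ c ∧ vl c x = 0)
  B := Finset.univ.filter (fun x : Fin n => (x : ℕ) / 2 ≠ c ∧ vl c x ≠ 0)
  disj := by
    rw [Finset.disjoint_left]
    intro x hx hx'
    rw [Finset.mem_filter] at hx hx'
    exact hx'.2.2 hx.2.2
  neA := by
    have key : ∃ i, i < 2 ∧ i ≠ c := by
      by_cases h : c = 0
      · exact ⟨1, by omega, by omega⟩
      · exact ⟨0, by omega, by omega⟩
    obtain ⟨i, hi, hic⟩ := key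
    have h2 : ∀ a : ZMod 2, a = 0 ∨ a = 1 := by decide
    rcases h2 (sg c i) with h | h
    · refine ⟨⟨2 * i, by omega⟩, ?_⟩
      rw [Finset.mem_filter]
      refine ⟨Finset.mem_univ _, ?_, ?_⟩
      · simp only; omega
      · unfold vl
        simp only
        rw [show 2 * i / 2 = i by omega, h]
        have : ((2 * i : ℕ) : ZMod 2) = 0 := by rw [ZMod.natCast_eq_zero_iff]; omega
        rw [this]; decide
    · refine ⟨⟨2 * i + 1, by omega⟩, ?_⟩
      rw [Finset.mem_filter]
      refine ⟨Finset.mem_univ _, ?_, ?_⟩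
      · simp only; omega
      · unfold vl
        simp only
        rw [show (2 * i + 1) / 2 = i by omega, h]
        have : ((2 * i + 1 : ℕ) : ZMod 2) = 1 := by
          rw [ZMod.natCast_eq_one_iff_odd]; exact ⟨i, rfl⟩
        rw [this]; decide
  neB := by
    have key : ∃ i, i < 2 ∧ i ≠ c := by
      by_cases h : c = 0
      · exact ⟨1, by omega, by omega⟩
      · exact ⟨0, by omega, by omega⟩
    obtain ⟨i, hi, hic⟩ := key
    have h2 : ∀ a : ZMod 2, a = 0 ∨ a = 1 := by decide
    rcases h2 (sg c i) with h | h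
    · refine ⟨⟨2 * i + 1, by omega⟩, ?_⟩
      rw [Finset.mem_filter]
      refine ⟨Finset.mem_univ _, ?_, ?_⟩
      · simp only; omega
      · unfold vl
        simp only
        rw [show (2 * i + 1) / 2 = i by omega, h]
        have : ((2 * i + 1 : ℕ) : ZMod 2) = 1 := by
          rw [ZMod.natCast_eq_one_iff_odd]; exact ⟨i, rfl⟩
        rw [this]; decide
    · refine ⟨⟨2 * i, by omega⟩, ?_⟩
      rw [Finset.mem_filter]
      refine ⟨Finset.mem_univ _, ?_, ?_⟩
      · simp only; omega
      · unfold vl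
        simp only
        rw [show 2 * i / 2 = i by omega, h]
        have : ((2 * i : ℕ) : ZMod 2) = 0 := by rw [ZMod.natCast_eq_zero_iff]; omega
        rw [this]; decide

open Classical in
lemma bq_has (n : ℕ) (hn : 4 ≤ n) (c : ℕ) (x y : Fin n) :
    (if (bq n hn c).Has x y then (1 : ZMod 2) else 0) =
      if (x : ℕ) / 2 ≠ c ∧ (y : ℕ) / 2 ≠ c then vl c x + vl c y else 0 := by
  have h2 : ∀ a : ZMod 2, a = 0 ∨ a = 1 := by decide
  unfold Biclique.Has bq
  simp only [Finset.mem_filter, Finset.mem_univ, true_and]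
  have e2 : (1 : ZMod 2) + 1 = 0 := by decide
  by_cases h3 : (x : ℕ) / 2 ≠ c <;> by_cases h4 : (y : ℕ) / 2 ≠ c <;>
    rcases h2 (vl c x) with h5 | h5 <;> rcases h2 (vl c y) with h6 | h6 <;>
    simp [h3, h4, h5, h6, e2]

lemma count_odd (n K : ℕ) (hn : 4 ≤ n) (hK : n ≤ 8 * K) (x y : Fin n) (hxy : x ≠ y) :
    Odd (Nat.card {c : Fin (4 * K) // (bq n hn c).Has x y}) := by
  classical
  rw [Nat.card_eq_fintype_card, Fintype.card_subtype, ← ZMod.natCast_eq_one_iff_odd,
    ← Finset.sum_boole]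
  have hc : ∀ c : Fin (4 * K), (if (bq n hn (c : ℕ)).Has x y then (1 : ZMod 2) else 0) =
      if (x : ℕ) / 2 ≠ (c : ℕ) ∧ (y : ℕ) / 2 ≠ (c : ℕ) then vl c x + vl c y else 0 := by
    intro c
    rw [← bq_has n hn c x y]
  rw [Finset.sum_congr rfl (fun c _ => hc c)]
  rw [Fin.sum_univ_eq_sum_range (fun c => if (x : ℕ) / 2 ≠ c ∧ (y : ℕ) / 2 ≠ c
    then vl c x + vl c y else 0) (4 * K)]
  exact main_sum K x y (by omega) (by omega) (fun h => hxy (Fin.ext h))

theorem upper (n K : ℕ) (hn : 4 ≤ n) (hK : n ≤ 8 * K) : (4 * K) * (4 * K) ∈ Sizes n := by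
  refine ⟨fun i => (bq n hn (finProdFinEquiv.symm i).1, bq n hn (finProdFinEquiv.symm i).2), ?_⟩
  intro x y z w hxy hzw
  have e : {i : Fin (4 * K * (4 * K)) // (bq n hn (finProdFinEquiv.symm i).1).Has x y ∧
      (bq n hn (finProdFinEquiv.symm i).2).Has z w} ≃
      {c : Fin (4 * K) // (bq n hn c).Has x y} × {d : Fin (4 * K) // (bq n hn d).Has z w} :=
    (Equiv.subtypeEquiv (p := fun i => (bq n hn (finProdFinEquiv.symm i).1).Has x y ∧
        (bq n hn (finProdFinEquiv.symm i).2).Has z w)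
      (q := fun c : Fin (4 * K) × Fin (4 * K) => (bq n hn c.1).Has x y ∧ (bq n hn c.2).Has z w)
      finProdFinEquiv.symm (fun _ => Iff.rfl)).trans
      (Equiv.subtypeProdEquivProd (p := fun c : Fin (4 * K) => (bq n hn c).Has x y)
        (q := fun c : Fin (4 * K) => (bq n hn c).Has z w))
  rw [Nat.card_congr e, Nat.card_prod]
  exact (count_odd n K hn hK x y hxy).mul (count_odd n K hn hK z w hzw)

/-- Main theorem: `⌊n/2⌋² ≤ m` for the size `m` of any odd cover, `gt n ≤ (4⌈n/8⌉)²` for `n ≥ 4`,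
`gt n = n²/4` whenever `8 ∣ n`, and `gt n / n² → 1/4`. -/
theorem result :
    (∀ n m : ℕ, m ∈ Sizes n → (n / 2) ^ 2 ≤ m) ∧
    (∀ n : ℕ, 4 ≤ n → ∃ m ∈ Sizes n, m ≤ (4 * ((n + 7) / 8)) ^ 2) ∧
    (∀ n : ℕ, 0 < n → 8 ∣ n → IsLeast (Sizes n) (n ^ 2 / 4)) ∧
    Filter.Tendsto (fun n : ℕ => (gt n : ℝ) / (n : ℝ) ^ 2) Filter.atTop (nhds (1 / 4)) := by
  have hl : ∀ n m : ℕ, m ∈ Sizes n → (n / 2) ^ 2 ≤ m := by
    rintro n m ⟨P, hP⟩
    exact lower P hP
  have hu : ∀ n : ℕ, 4 ≤ n → ∃ m ∈ Sizes n, m ≤ (4 * ((n + 7) / 8)) ^ 2 := by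
    intro n hn
    exact ⟨_, upper n ((n + 7) / 8) hn (by omega), by rw [sq]⟩
  refine ⟨hl, hu, ?_, ?_⟩
  · rintro n hn ⟨K, rfl⟩
    have h1 : (8 * K) ^ 2 / 4 = (4 * K) * (4 * K) := by
      rw [show (8 * K) ^ 2 = (4 * K * (4 * K)) * 4 by ring, Nat.mul_div_cancel _ (by norm_num)]
    rw [h1]
    refine ⟨upper (8 * K) K (by omega) le_rfl, ?_⟩
    intro m hm
    have := hl _ m hm
    rw [show 8 * K / 2 = 4 * K by omega, sq] at this
    exact this
  · have h1 : ∀ n : ℕ, 4 ≤ n → ((n : ℝ) - 1) ^ 2 / 4 ≤ gt n ∧ (gt n : ℝ) ≤ ((n : ℝ) + 7) ^ 2 / 4 := by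
      intro n hn
      obtain ⟨m, hm, hm'⟩ := hu n hn
      have h2 : gt n ∈ Sizes n := Nat.sInf_mem ⟨m, hm⟩
      have h3 := hl n _ h2
      have h4 : gt n ≤ m := Nat.sInf_le hm
      have h5 := h4.trans hm'
      have hn4 : (4 : ℝ) ≤ n := by exact_mod_cast hn
      constructor
      · have h6 : (n : ℝ) - 1 ≤ 2 * ((n / 2 : ℕ) : ℝ) := by
          have : n ≤ 2 * (n / 2) + 1 := by omega
          have : (n : ℝ) ≤ 2 * ((n / 2 : ℕ) : ℝ) + 1 := by exact_mod_cast this
          linarith
        have h7 : (((n / 2 : ℕ) : ℝ)) ^ 2 ≤ gt n := by exact_mod_cast h3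
        nlinarith
      · have h6 : 2 * ((4 * ((n + 7) / 8) : ℕ) : ℝ) ≤ (n : ℝ) + 7 := by
          have : 2 * (4 * ((n + 7) / 8)) ≤ n + 7 := by omega
          exact_mod_cast this
        have h7 : (gt n : ℝ) ≤ ((4 * ((n + 7) / 8) : ℕ) : ℝ) ^ 2 := by exact_mod_cast h5
        have h8 : (0 : ℝ) ≤ ((4 * ((n + 7) / 8) : ℕ) : ℝ) := by positivity
        nlinarith
    have t1 : Filter.Tendsto (fun n : ℕ => ((1 : ℝ) - 1 / (n : ℝ)) ^ 2 / 4) Filter.atTop
        (nhds (1 / 4)) := by
      have := tendsto_one_div_atTop_nhds_zero_nat (𝕜 := ℝ)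
      have h := ((this.const_sub 1).pow 2).div_const 4
      simpa using h
    have t2 : Filter.Tendsto (fun n : ℕ => ((1 : ℝ) + 7 * (1 / (n : ℝ))) ^ 2 / 4) Filter.atTop
        (nhds (1 / 4)) := by
      have := tendsto_one_div_atTop_nhds_zero_nat (𝕜 := ℝ)
      have h := (((this.const_mul 7).const_add 1).pow 2).div_const 4
      simpa using h
    refine tendsto_of_tendsto_of_tendsto_of_le_of_le' t1 t2 ?_ ?_
    · filter_upwards [Filter.eventually_ge_atTop 4] with n hn
      have hn0 : (0 : ℝ) < n := by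
        have : 0 < n := by omega
        exact_mod_cast this
      rw [le_div_iff₀ (by positivity)]
      have := (h1 n hn).1
      have e : ((1 : ℝ) - 1 / (n : ℝ)) ^ 2 / 4 * (n : ℝ) ^ 2 = ((n : ℝ) - 1) ^ 2 / 4 := by
        field_simp
      rw [e]; exact this
    · filter_upwards [Filter.eventually_ge_atTop 4] with n hn
      have hn0 : (0 : ℝ) < n := by
        have : 0 < n := by omega
        exact_mod_cast this
      rw [div_le_iff₀ (by positivity)]
      have := (h1 n hn).2
      have e : ((1 : ℝ) + 7 * (1 / (n : ℝ))) ^ 2 / 4 * (n : ℝ) ^ 2 = ((n : ℝ) + 7) ^ 2 / 4 := by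
        field_simp
      rw [e]; exact this

end Pool.Agent.Results.MP_cb2837_co.QuarterAsymptotic
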